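import Pool.Agent.R217.PC.Prof

set_option autoImplicit false

open MeasureTheory Filter Topology

namespace Pool.Agent.Results.MP_bf093f_an.LimitProfile

open Pool.Agent.R217.BN (E cexp)
open Pool.Agent.R217.PC (LES IsD WeakD vs Gs)

/-- Full answers to Q1 and Q2 (both positive, for all `N ≥ 3` and `p ∈ (2, 2*)`): let `ε n → 0` and
let `u n` be a positive least energy solution of `(P_{ε n})`, with gradient `G n`.

Q1: there are `k n ∈ ℤ^N` and a subsequence along which the rescaled functions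
`v_n (x) = ε_n ^ (2 / (p - 2)) * u_n (ε_n x + k_n)` converge weakly in `D^{1,2}` to a nonnegative,
not identically vanishing function.

Q2: for every choice of `k n` and every subsequence along which the rescaled functions converge weakly
in `D^{1,2}` to a function `v` which does not vanish identically, the convergence is strong in
`D^{1,2} ∩ L^p` along the same subsequence. -/
theorem result (N : ℕ) (hN : 3 ≤ N) (p : ℝ) (hp : 2 < p) (hp' : p < cexp N)
    (ε : ℕ → ℝ) (hε : ∀ n, ε n ∈ Set.Ioo (0 : ℝ) (1 / 2)) (hlim : Tendsto ε atTop (𝓝 0))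
    (u : ℕ → E N → ℝ) (G : ℕ → E N → E N) (h : ∀ n, LES N p (ε n) (u n) (G n))
    (hpos : ∀ n, ∀ᵐ x ∂(volume : Measure (E N)), 0 < u n x) :
    (∃ (k : ℕ → Fin N → ℤ) (m : ℕ → ℕ) (v : E N → ℝ) (V : E N → E N),
      StrictMono m ∧ IsD v V ∧ (∀ᵐ x ∂(volume : Measure (E N)), 0 ≤ v x) ∧
      ¬ v =ᵐ[volume] 0 ∧ WeakD (fun j => Gs p (ε (m j)) (G (m j)) (k (m j))) V) ∧
    ∀ (k : ℕ → Fin N → ℤ) (m : ℕ → ℕ) (v : E N → ℝ) (V : E N → E N),
      StrictMono m → IsD v V → ¬ v =ᵐ[volume] 0 →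
      WeakD (fun j => Gs p (ε (m j)) (G (m j)) (k (m j))) V →
      Tendsto (fun j => ∫ x, ‖Gs p (ε (m j)) (G (m j)) (k (m j)) x - V x‖ ^ 2) atTop (𝓝 0) ∧
      Integrable (fun x => |v x| ^ p) ∧
      Tendsto (fun j => ∫ x, |vs p (ε (m j)) (u (m j)) (k (m j)) x - v x| ^ p) atTop (𝓝 0) := by
  have h3 : (0:ℝ) < (N:ℝ) - 2 := by
    have : (3:ℝ) ≤ N := by exact_mod_cast hN
    linarith
  have hq' : ((N:ℝ) - 2) * p < 2 * N := by
    unfold cexp at hp'
    rw [lt_div_iff₀ h3] at hp'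
    linarith
  have hε1 : ∀ n, ε n ≤ 1 := fun n => (hε n).2.le.trans (by norm_num)
  refine ⟨Pool.Agent.R217.PC.prof1 hN hp hq' (fun n => (hε n).1) hε1 hlim h hpos, ?_⟩
  intro k m v V hm hv hv0 hw
  exact Pool.Agent.R217.PC.prof2 hN hp hq' (fun j => (hε (m j)).1) (fun j => hε1 (m j))
    (hlim.comp hm.tendsto_atTop) (fun j => h (m j)) (fun j => k (m j)) hv hv0 hw

end Pool.Agent.Results.MP_bf093f_an.LimitProfile
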